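import Pool.Agent.Q96.NU.Main

/-!
# MP_3cb207_an: the Bishop–Phelps–Bollobás property for numerical radius does not imply
# property (nu)

Negative answer to Q1.  The complex Banach space is the `ℓ₂` sum of the planes `ℂ²` with the norms
`N_n(z)² = |z|² (1 + r²/100 · cos(2 Re(conj z₁ z₂)/(r |z|²)))`, `r = 1/(n+1)`.
-/

namespace Pool.Agent.Results.MP_3cb207_an.BPBWithoutNu

section Defs

variable (𝕜 : Type) [RCLike 𝕜] (X : Type) [NormedAddCommGroup X] [NormedSpace 𝕜 X]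

variable {𝕜 X} in
/-- the pair `(x, f)` belongs to `Π(X)` -/
def IsPi (x : X) (f : X →L[𝕜] 𝕜) : Prop := ‖x‖ = 1 ∧ ‖f‖ = 1 ∧ f x = 1

variable {𝕜 X} in
/-- the numerical radius of `T`: the supremum of `|f (T x)|` over `Π(X)` -/
noncomputable def nu (T : X →L[𝕜] X) : ℝ :=
  sSup {r : ℝ | ∃ (x : X) (f : X →L[𝕜] 𝕜), IsPi x f ∧ r = ‖f (T x)‖}

/-- the Bishop–Phelps–Bollobás property for the numerical radius -/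
def BPBpNu : Prop :=
  ∀ ε : ℝ, 0 < ε → ∃ η : ℝ, 0 < η ∧
    ∀ (T : X →L[𝕜] X) (x₀ : X) (f₀ : X →L[𝕜] 𝕜), nu T = 1 → IsPi x₀ f₀ →
      1 - η < ‖f₀ (T x₀)‖ →
      ∃ (S : X →L[𝕜] X) (x₁ : X) (f₁ : X →L[𝕜] 𝕜), IsPi x₁ f₁ ∧ nu S = 1 ∧ ‖f₁ (S x₁)‖ = 1 ∧
        ‖S - T‖ < ε ∧ ‖x₁ - x₀‖ < ε ∧ ‖f₁ - f₀‖ < ε

/-- property (nu) -/
def PropNu : Prop :=
  ∀ ε : ℝ, 0 < ε → ∃ η : ℝ, 0 < η ∧
    ∀ (T : X →L[𝕜] X) (x₀ : X) (f₀ : X →L[𝕜] 𝕜), ‖T‖ = 1 → ‖x₀‖ = 1 → ‖f₀‖ = 1 →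
      1 - η < RCLike.re (f₀ x₀) → ‖f₀ (T x₀)‖ = 1 →
      ∃ (S : X →L[𝕜] X) (x₁ : X) (f₁ : X →L[𝕜] 𝕜), ‖S‖ = 1 ∧ ‖x₁‖ = 1 ∧ ‖f₁‖ = 1 ∧
        f₁ x₁ = 1 ∧ ‖f₁ (S x₁)‖ = 1 ∧
        ‖S - T‖ < ε ∧ ‖x₁ - x₀‖ < ε ∧ ‖f₁ - f₀‖ < ε

end Defs

/-- **Negative answer to Q1**: some complex Banach space has the Bishop–Phelps–Bollobás property
for the numerical radius and fails property (nu). -/
theorem result : ∃ (X : Type) (_ : NormedAddCommGroup X) (_ : NormedSpace ℂ X)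
    (_ : CompleteSpace X), BPBpNu ℂ X ∧ ¬ PropNu ℂ X :=
  ⟨Q96.NU.XX, inferInstance, inferInstance, inferInstance, Q96.NU.main⟩

end Pool.Agent.Results.MP_3cb207_an.BPBWithoutNu
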